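import Pool.Agent.H746UG.Nba

/-!
The growth gap for groups of solvability class at most 2, and for all groups with a
nilpotent-by-abelian subgroup of index at most `m`, reduces to digit sums of algebraic units.

Proof in outline.  Let `G = ⟨S⟩` be metabelian and not virtually nilpotent.  Then `A = G'` is a
Noetherian module over the group ring of `G/A`.  Take a submodule `W` maximal among those modulo
which no finite-index subgroup acts unipotently.  Every element of the group ring acts on `A/W`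
as zero or injectively, so the group ring acts through a domain `R`, and some element of `G` does
not act as a root of unity; hence some `s ∈ S` does not, some `t ∈ S` has `[t, s] ∉ W`, and one
of `X = s t`, `X = s s t` does not act as a root of unity.  With `Y = s⁻¹ X s` (that is `t s` or
`s t s`) one has `Y = α X`, `α ∈ A`, and `α ∉ W`.  A word of length `n` in `X`, `Y` equals
`(∑ ε_i x ^ i) α · X ^ n`, where `x ∈ R` is the multiplier of `X` and `ε_i = 1` when the letter
in position `i` is `Y`.  So the number of values of words of length `n` is at least the number of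
digit sums of `x`, and `x` is replaced by a complex number with the same digit sums (in positive
characteristic, and for transcendental `x`, all digit sums are distinct).  Conversely the digit
sums of `x` count the words in the affine maps `z ↦ x z`, `z ↦ x z + 1`.

If `G'` is nilpotent, then `G/G''` is not virtually nilpotent (Hall's criterion), and one passes to
`G/G''`.  A subgroup of index `m` is generated by elements which are positive words of length at
most `2 m - 1` in `S`.
-/

set_option autoImplicit false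

namespace Pool.Agent.Results.MP_d69e80_al.ClassTwoReduction

open Filter Topology
open scoped Pointwise

universe u

/-- The exponential growth rate `ρ_S = lim (1/n) log |S ^ n|`, where `S ^ n` is the set of all
products of `n` elements of `S` (pointwise power of sets). -/
noncomputable def rho {G : Type*} [Group G] (S : Set G) : ℝ :=
  limUnder atTop (fun n : ℕ => Real.log (Nat.card ↥(S ^ n)) / n)

/-- The set of all sums `∑ ε_i x ^ i` over `0 ≤ i < n` with digits `ε_i ∈ {0, 1}`. -/
def digitSums (x : ℂ) (n : ℕ) : Set ℂ :=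
  {z | ∃ ε : Fin n → Bool, z = ∑ i : Fin n, if ε i then x ^ (i : ℕ) else 0}

/-- The growth rate `η(x) = lim (1/n) log |digitSums x n|`. -/
noncomputable def eta (x : ℂ) : ℝ :=
  limUnder atTop (fun n : ℕ => Real.log (Nat.card ↥(digitSums x n)) / n)

/-- `x` is an algebraic unit (`x` and `x⁻¹` are algebraic integers) and not a root of unity. -/
def UnitNotRoot (x : ℂ) : Prop :=
  x ≠ 0 ∧ IsIntegral ℤ x ∧ IsIntegral ℤ x⁻¹ ∧ ∀ m > 0, x ^ m ≠ 1

/-- The derived group `G'` is nilpotent, or `G/G''` is not virtually nilpotent. -/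
def Tame (G : Type*) [Group G] : Prop :=
  Group.IsNilpotent (commutator G) ∨ ¬ Group.IsVirtuallyNilpotent (G ⧸ derivedSeries G 2)

/-- The growth gap with constant `c` for metabelian groups (solvability class at most 2). -/
def ClassTwoGap (c : ℝ) : Prop :=
  ∀ (G : Type) [Group G] (S : Set G), S.Finite → Subgroup.closure S = ⊤ →
    derivedSeries G 2 = ⊥ → Group.IsVirtuallyNilpotent G ∨ c ≤ rho S

/-- The growth gap with constant `c` for the groups with a tame subgroup of index at most `m`. -/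
def IndexGap (m : ℕ) (c : ℝ) : Prop :=
  ∀ (G : Type) [Group G] (S : Set G), S.Finite → Subgroup.closure S = ⊤ →
    (∃ H : Subgroup G, H.index ≠ 0 ∧ H.index ≤ m ∧ Tame H) →
      Group.IsVirtuallyNilpotent G ∨ c ≤ rho S

/-- The gap with constant `c` for digit sums of algebraic units. -/
def UnitGap (c : ℝ) : Prop := ∀ x : ℂ, UnitNotRoot x → c ≤ eta x

/-- (1) Let `S` be a finite generating set (not assumed symmetric) of a group `G` that is not
virtually nilpotent, with `G'` nilpotent or `G/G''` not virtually nilpotent.  Then either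
`|S ^ n| ^ 3 ≥ 2 ^ n` for all `n` and `ρ_S ≥ (log 2)/3`, or there is an algebraic unit `x`, not a
root of unity, with `|S ^ n| ^ 3 ≥ |digitSums x n|` for all `n` and `ρ_S ≥ η(x)/3`.
(2) If only a subgroup `H` of finite index `m` satisfies this condition, then
`ρ_S ≥ (log 2)/(3 (2 m - 1))` or `ρ_S ≥ η(x)/(3 (2 m - 1))` for such an `x`.
(3) Conversely, for every such `x` there is a metabelian, not virtually nilpotent group with a
finite generating set `S` such that `|S ^ n| = |digitSums x n|` for all `n` and `ρ_S = η(x)`.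
(4) Consequently a gap `c ≤ log 2` for algebraic units gives the gap `c/(3 (2 m - 1))` for the
groups with a tame subgroup of index at most `m`, a gap for metabelian groups gives the same gap
for algebraic units, and a positive gap exists for metabelian groups if and only if it exists for
digit sums of algebraic units, if and only if it exists, for every `m`, for the groups with a tame
subgroup of index at most `m`.  All limits exist. -/
theorem result :
    (∀ (G : Type u) [Group G] (S : Set G), S.Finite → Subgroup.closure S = ⊤ →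
      Tame G → ¬ Group.IsVirtuallyNilpotent G →
      Tendsto (fun n : ℕ => Real.log (Nat.card ↥(S ^ n)) / n) atTop (𝓝 (rho S)) ∧
      (((∀ n : ℕ, 2 ^ n ≤ Nat.card ↥(S ^ n) ^ 3) ∧ Real.log 2 / 3 ≤ rho S) ∨
        ∃ x : ℂ, UnitNotRoot x ∧
          (∀ n : ℕ, Nat.card ↥(digitSums x n) ≤ Nat.card ↥(S ^ n) ^ 3) ∧
          eta x / 3 ≤ rho S)) ∧
    (∀ (G : Type u) [Group G] (S : Set G), S.Finite → Subgroup.closure S = ⊤ →
      ∀ H : Subgroup G, H.index ≠ 0 → Tame H → ¬ Group.IsVirtuallyNilpotent G →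
      Tendsto (fun n : ℕ => Real.log (Nat.card ↥(S ^ n)) / n) atTop (𝓝 (rho S)) ∧
      (Real.log 2 / (3 * (2 * H.index - 1)) ≤ rho S ∨
        ∃ x : ℂ, UnitNotRoot x ∧ eta x / (3 * (2 * H.index - 1)) ≤ rho S)) ∧
    (∀ x : ℂ, UnitNotRoot x →
      Tendsto (fun n : ℕ => Real.log (Nat.card ↥(digitSums x n)) / n) atTop (𝓝 (eta x)) ∧
      ∃ (G : Type) (_ : Group G) (S : Set G), S.Finite ∧ Subgroup.closure S = ⊤ ∧
        derivedSeries G 2 = ⊥ ∧ ¬ Group.IsVirtuallyNilpotent G ∧
        (∀ n : ℕ, Nat.card ↥(S ^ n) = Nat.card ↥(digitSums x n)) ∧ rho S = eta x) ∧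
    (∀ c : ℝ, (0 < c → c ≤ Real.log 2 → UnitGap c →
        ∀ m : ℕ, 1 ≤ m → IndexGap m (c / (3 * (2 * m - 1)))) ∧
      (ClassTwoGap c → UnitGap c)) ∧
    ((∃ c > 0, ClassTwoGap c) ↔ ∃ c > 0, UnitGap c) ∧
    ((∃ c > 0, ClassTwoGap c) ↔ ∀ m : ℕ, 1 ≤ m → ∃ c > 0, IndexGap m c) := by
  have h1 : ∀ (G : Type u) [Group G] (S : Set G), S.Finite → Subgroup.closure S = ⊤ →
      Tame G → ¬ Group.IsVirtuallyNilpotent G →
      Tendsto (fun n : ℕ => Real.log (Nat.card ↥(S ^ n)) / n) atTop (𝓝 (rho S)) ∧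
      (((∀ n : ℕ, 2 ^ n ≤ Nat.card ↥(S ^ n) ^ 3) ∧ Real.log 2 / 3 ≤ rho S) ∨
        ∃ x : ℂ, UnitNotRoot x ∧
          (∀ n : ℕ, Nat.card ↥(digitSums x n) ≤ Nat.card ↥(S ^ n) ^ 3) ∧
          eta x / 3 ≤ rho S) := by
    intro G _ S hS hgen ht hnv
    refine ⟨H746UG.tendsto_rho S, ?_⟩
    obtain ⟨x, hx0, hx, hn⟩ := H746UG.tame_gap S hS hgen ht hnv
    by_cases hi : IsIntegral ℤ x ∧ IsIntegral ℤ x⁻¹
    · right
      have h2 : ∀ n : ℕ, Nat.card ↥(H746UG.digitSums x n) ≤ Nat.card ↥(S ^ n) ^ 3 := by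
        intro n
        rw [← H746UG.DS_eq_digitSums]
        exact hn n
      exact ⟨x, ⟨hx0, hi.1, hi.2, hx⟩, h2, H746UG.eta_le_rho S x hx0 h2⟩
    · left
      have h2 : ∀ n : ℕ, 2 ^ n ≤ Nat.card ↥(S ^ n) ^ 3 := by
        intro n
        rw [← H746UG.eta_log_two x hx0 hi n, ← H746UG.DS_eq_digitSums]
        exact hn n
      exact ⟨h2, H746UG.rho_ge S h2⟩
  have h2 : ∀ x : ℂ, UnitNotRoot x →
      Tendsto (fun n : ℕ => Real.log (Nat.card ↥(digitSums x n)) / n) atTop (𝓝 (eta x)) ∧
      ∃ (G : Type) (_ : Group G) (S : Set G), S.Finite ∧ Subgroup.closure S = ⊤ ∧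
        derivedSeries G 2 = ⊥ ∧ ¬ Group.IsVirtuallyNilpotent G ∧
        (∀ n : ℕ, Nat.card ↥(S ^ n) = Nat.card ↥(digitSums x n)) ∧ rho S = eta x := by
    intro x hx
    refine ⟨H746UG.tendsto_eta x hx.1, H746UG.AG x hx.1, inferInstance, H746UG.AS x hx.1,
      H746UG.AS_finite x hx.1, H746UG.AS_gen x hx.1, H746UG.aff_metabelian x hx.1,
      H746UG.aff_not_vn x hx.1 hx.2.2.2, ?_, H746UG.rho_AS x hx.1⟩
    intro n
    rw [H746UG.aff_card, H746UG.DS_eq_digitSums]
    rfl
  have hm2 : ∀ m : ℕ, 1 ≤ m → ((2 * m - 1 : ℕ) : ℝ) = 2 * (m : ℝ) - 1 := by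
    intro m hm
    rw [Nat.cast_sub (by omega)]
    push_cast
    ring
  -- the index version with the rates
  have h3 : ∀ (G : Type u) [Group G] (S : Set G), S.Finite → Subgroup.closure S = ⊤ →
      ∀ H : Subgroup G, H.index ≠ 0 → Tame H → ¬ Group.IsVirtuallyNilpotent G →
      ∃ x : ℂ, x ≠ 0 ∧ (∀ m > 0, x ^ m ≠ 1) ∧ eta x / (3 * (2 * H.index - 1)) ≤ rho S := by
    intro G _ S hS hgen H hH ht hnv
    have hHf : H.FiniteIndex := ⟨hH⟩
    obtain ⟨x, hx0, hx, hn⟩ := H746UG.index_gap S hS hgen hnv H ht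
    refine ⟨x, hx0, hx, ?_⟩
    have hm : 1 ≤ H.index := Nat.pos_of_ne_zero hH
    have h4 := H746UG.index_rate S (H746UG.card_pow_pos S hS hgen hnv) x hx0 (2 * H.index - 1)
      (by omega) (by
        intro n
        rw [← H746UG.DS_eq_digitSums]
        exact hn n)
    rw [hm2 _ hm] at h4
    exact h4
  have h3' : ∀ (G : Type) [Group G] (S : Set G), S.Finite → Subgroup.closure S = ⊤ →
      ∀ H : Subgroup G, H.index ≠ 0 → Tame H → ¬ Group.IsVirtuallyNilpotent G →
      ∃ x : ℂ, x ≠ 0 ∧ (∀ m > 0, x ^ m ≠ 1) ∧ eta x / (3 * (2 * H.index - 1)) ≤ rho S := by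
    intro G _ S hS hgen H hH ht hnv
    have hHf : H.FiniteIndex := ⟨hH⟩
    obtain ⟨x, hx0, hx, hn⟩ := H746UG.index_gap S hS hgen hnv H ht
    refine ⟨x, hx0, hx, ?_⟩
    have hm : 1 ≤ H.index := Nat.pos_of_ne_zero hH
    have h4 := H746UG.index_rate S (H746UG.card_pow_pos S hS hgen hnv) x hx0 (2 * H.index - 1)
      (by omega) (by
        intro n
        rw [← H746UG.DS_eq_digitSums]
        exact hn n)
    rw [hm2 _ hm] at h4
    exact h4
  have h4 : ∀ c : ℝ, (0 < c → c ≤ Real.log 2 → UnitGap c →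
        ∀ m : ℕ, 1 ≤ m → IndexGap m (c / (3 * (2 * m - 1)))) ∧
      (ClassTwoGap c → UnitGap c) := by
    intro c
    constructor
    · intro hc0 hc hU m hm G _ S hS hgen hH
      by_cases hnv : Group.IsVirtuallyNilpotent G
      · left; exact hnv
      · right
        obtain ⟨H, hH0, hHm, ht⟩ := hH
        obtain ⟨x, hx0, hx, hn⟩ := h3' G S hS hgen H hH0 ht hnv
        have h5 : c ≤ eta x := by
          by_cases hi : IsIntegral ℤ x ∧ IsIntegral ℤ x⁻¹
          · exact hU x ⟨hx0, hi.1, hi.2, hx⟩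
          · exact hc.trans_eq (H746UG.eta_eq_log_two x hx0 hi).symm
        refine le_trans ?_ hn
        have h6 : (1 : ℝ) ≤ H.index := by exact_mod_cast Nat.pos_of_ne_zero hH0
        have h7 : (H.index : ℝ) ≤ m := by exact_mod_cast hHm
        apply div_le_div₀ (hc0.le.trans h5) h5 (by linarith) (by linarith)
    · intro hG x hx
      obtain ⟨_, G, _, S, hS, hgen, hmet, hnv, _, hrho⟩ := h2 x hx
      rcases hG G S hS hgen hmet with h4 | h4
      · exact absurd h4 hnv
      · rwa [hrho] at h4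
  have h5 : ∀ m : ℕ, 1 ≤ m → ∀ c : ℝ, IndexGap m c → ClassTwoGap c := by
    intro m hm c h G _ S hS hgen hmet
    exact h G S hS hgen ⟨⊤, by simp, by simpa using hm, H746UG.tame_top hmet⟩
  have h6 : (∃ c > 0, UnitGap c) → ∀ m : ℕ, 1 ≤ m → ∃ c > 0, IndexGap m c := by
    rintro ⟨c, hc, h⟩ m hm
    have hlog : 0 < Real.log 2 := Real.log_pos (by norm_num)
    have hm' : (1 : ℝ) ≤ m := by exact_mod_cast hm
    have hmin : 0 < min c (Real.log 2) := lt_min hc hlog
    refine ⟨min c (Real.log 2) / (3 * (2 * m - 1)), div_pos hmin (by linarith),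
      (h4 _).1 hmin (min_le_right _ _) (fun x hx => (min_le_left _ _).trans (h x hx)) m hm⟩
  have h7 : (∃ c > 0, ClassTwoGap c) → ∃ c > 0, UnitGap c := fun ⟨c, hc, h⟩ =>
    ⟨c, hc, (h4 c).2 h⟩
  have h8 : (∀ m : ℕ, 1 ≤ m → ∃ c > 0, IndexGap m c) → ∃ c > 0, ClassTwoGap c := by
    intro h
    obtain ⟨c, hc, h⟩ := h 1 le_rfl
    exact ⟨c, hc, h5 1 le_rfl c h⟩
  refine ⟨h1, ?_, h2, h4, ⟨h7, fun h => h8 (h6 h)⟩, ⟨fun h => h6 (h7 h), h8⟩⟩
  intro G _ S hS hgen H hH ht hnv
  refine ⟨H746UG.tendsto_rho S, ?_⟩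
  obtain ⟨x, hx0, hx, hn⟩ := h3 G S hS hgen H hH ht hnv
  by_cases hi : IsIntegral ℤ x ∧ IsIntegral ℤ x⁻¹
  · right
    exact ⟨x, ⟨hx0, hi.1, hi.2, hx⟩, hn⟩
  · left
    have h9 : eta x = Real.log 2 := H746UG.eta_eq_log_two x hx0 hi
    rwa [h9] at hn

end Pool.Agent.Results.MP_d69e80_al.ClassTwoReduction
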