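import Pool.Agent.H785R3.GrowthR

/-!
# Nilpotent-by-(nilpotent of class at most `k`) groups: reduction to digit sums of algebraic units

Partial result on MP_d69e80_al.  The case of solvability class 2 of the question is equivalent to
the growth gap, for every fixed `k`, in the class of all finitely generated groups `G` whose term
`Γ = γ_{k+1}(G)` of the lower central series is nilpotent (or such that `G / [Γ, Γ]` is not
virtually nilpotent).

Proof in outline.  Let `Γ = γ_{k+1}(G)` be nilpotent and `G` not virtually nilpotent, and pass to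
`G/Γ'`, so that `Γ` is an abelian group `A` with an action of the nilpotent group `G/Γ`.  There are
pairs `u, v` of words of the same length `< 3·2^{k-1}` in `S`, equal modulo `Γ`, such that the
elements `d = v⁻¹u` generate `Γ` as a normal subgroup.  If some pair of elements of `S ^ j`,
`j ≤ 2^{k+1}`, generates a free semigroup, take `x = 2`.  Otherwise `A` is finitely generated
(`gam_fg_mod`).  If for all these `d` the elements `v` and `sv` (`s ∈ S`) act quasi-unipotently at
`d`, then a finite index subgroup acts unipotently on `A`: in a just-non-(virtually unipotent)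
quotient of `A` every endomorphism commuting with the action is zero or injective, a determinant
argument shows that the action there is through a group with finite derived subgroup, and then
`v`, `sv` have finite order there, so the group acting is finite.  By P. Hall's criterion `G` is
then virtually nilpotent.  Otherwise some `t = v` or `t = sv` has at `d` an eigenvalue `x` that is
not a root of unity, and the products of `t` and `td` are as many as the digit sums of `x`.
-/

set_option autoImplicit false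

namespace Pool.Agent.Results.MP_d69e80_al.NilpotentByClassKReduction

open Filter Topology
open Pool.Agent
open scoped Pointwise commutatorElement

universe u

/-- The exponential growth rate `ρ_S = lim (1/n) log |S ^ n|`, where `S ^ n` is the set of all
products of `n` elements of `S` (pointwise power of sets). -/
noncomputable def rho {G : Type*} [Group G] (S : Set G) : ℝ :=
  limUnder atTop (fun n : ℕ => Real.log (Nat.card ↥(S ^ n)) / n)

/-- The set of all sums `∑ ε_i x ^ i` over `0 ≤ i < n` with digits `ε_i ∈ {0, 1}`. -/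
def digitSums (x : ℂ) (n : ℕ) : Set ℂ :=
  {z | ∃ ε : Fin n → Bool, z = ∑ i : Fin n, if ε i then x ^ (i : ℕ) else 0}

/-- The growth rate `η(x) = lim (1/n) log |digitSums x n|`. -/
noncomputable def eta (x : ℂ) : ℝ :=
  limUnder atTop (fun n : ℕ => Real.log (Nat.card ↥(digitSums x n)) / n)

/-- `x` is an algebraic unit (`x` and `x⁻¹` are algebraic integers) and not a root of unity. -/
def UnitNotRoot (x : ℂ) : Prop :=
  x ≠ 0 ∧ IsIntegral ℤ x ∧ IsIntegral ℤ x⁻¹ ∧ ∀ m > 0, x ^ m ≠ 1

/-- The growth gap with constant `c` for metabelian groups (solvability class at most 2). -/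
def ClassTwoGap (c : ℝ) : Prop :=
  ∀ (G : Type) [Group G] (S : Set G), S.Finite → Subgroup.closure S = ⊤ →
    derivedSeries G 2 = ⊥ → Group.IsVirtuallyNilpotent G ∨ c ≤ rho S

/-- The term `γ_{k+1}(G)` of the lower central series (so `k = 1` gives `G'`). -/
abbrev gamma (G : Type*) [Group G] (k : ℕ) : Subgroup G := (⊤ : Subgroup G).lowerCentralSeries k

/-- The class of groups, for `k`: with `Γ = γ_{k+1}(G)`, either `Γ` is nilpotent or `G / [Γ, Γ]` is
not virtually nilpotent. -/
def InClass (k : ℕ) (G : Type*) [Group G] : Prop :=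
  Group.IsNilpotent (gamma G k) ∨ ¬ Group.IsVirtuallyNilpotent (G ⧸ ⁅gamma G k, gamma G k⁆)

/-- The growth gap with constant `c` for the groups in the class for `k`. -/
def ClassKGap (k : ℕ) (c : ℝ) : Prop :=
  ∀ (G : Type) [Group G] (S : Set G), S.Finite → Subgroup.closure S = ⊤ →
    InClass k G → Group.IsVirtuallyNilpotent G ∨ c ≤ rho S

lemma eta_le {G : Type*} [Group G] (S : Set G) (x : ℂ) (hx : x ≠ 0) {L : ℕ} (hL : 0 < L)
    (h : ∀ n, Nat.card ↥(digitSums x n) ≤ Nat.card ↥(S ^ n) ^ L) : eta x / L ≤ rho S := by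
  have hL' : (0 : ℝ) < L := by exact_mod_cast hL
  have h1 : Tendsto (fun n : ℕ => Real.log (Nat.card ↥(digitSums x n)) / n / L) atTop
      (𝓝 (eta x / L)) := (H746UG.tendsto_eta x hx).div_const _
  refine le_of_tendsto_of_tendsto' h1 (H746UG.tendsto_rho S) ?_
  intro n
  have h2 : (0 : ℝ) < Nat.card ↥(digitSums x n) := by
    have h3 := H746UG.DS_pos x n
    rw [H746UG.DS_eq_digitSums] at h3
    exact_mod_cast h3
  have h3 : Real.log (Nat.card ↥(digitSums x n)) ≤ L * Real.log (Nat.card ↥(S ^ n)) := by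
    have h4 : Real.log (Nat.card ↥(digitSums x n)) ≤ Real.log ((Nat.card ↥(S ^ n) : ℝ) ^ L) := by
      apply Real.log_le_log h2
      exact_mod_cast h n
    rw [Real.log_pow] at h4
    exact h4
  rcases Nat.eq_zero_or_pos n with h0 | h0
  · subst h0; simp
  · have h5 : (0 : ℝ) < n := by exact_mod_cast h0
    rw [div_div, div_le_div_iff₀ (by positivity) h5]
    nlinarith

theorem main2 :
    (∀ (k : ℕ) (c : ℝ), 1 ≤ k → c ≤ Real.log 2 → ClassTwoGap c →
      ClassKGap k (c / 2 ^ (k + 1))) ∧
    ((∃ c > 0, ClassTwoGap c) ↔ ∀ k : ℕ, 1 ≤ k → ∃ c > 0, ClassKGap k c) := by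
  have h1' : ∀ (k : ℕ), 1 ≤ k → ∀ (G : Type) [Group G] (S : Set G), S.Finite →
      Subgroup.closure S = ⊤ → InClass k G → ¬ Group.IsVirtuallyNilpotent G →
      (Real.log 2 / 2 ^ (k + 1) ≤ rho S ∨
        ∃ x : ℂ, UnitNotRoot x ∧ eta x / 2 ^ (k + 1) ≤ rho S) := by
    intro k hk G _ S hS hgen hnil hnv
    obtain ⟨x, hx0, hx, hn⟩ := (H785R3.GrowthA.main_dig hS hgen hk).resolve_right (by
      rintro ⟨h4, h5⟩
      rcases hnil with h6 | h6
      · exact hnv (h5 h6)
      · exact h6 h4)
    have h2 : ∀ n : ℕ, Nat.card ↥(digitSums x n) ≤ Nat.card ↥(S ^ n) ^ (2 ^ (k + 1)) := by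
      intro n
      have h3 := hn n
      rw [H746UG.DS_eq_digitSums] at h3
      exact h3
    have h3 := eta_le S x hx0 (L := 2 ^ (k + 1)) (by positivity) h2
    push_cast at h3
    by_cases hi : IsIntegral ℤ x ∧ IsIntegral ℤ x⁻¹
    · exact Or.inr ⟨x, ⟨hx0, hi.1, hi.2, hx⟩, h3⟩
    · left
      have h4 : eta x = Real.log 2 := H746UG.eta_eq_log_two x hx0 hi
      rw [h4] at h3
      exact h3
  have h2 : ∀ (k : ℕ) (c : ℝ), 1 ≤ k → c ≤ Real.log 2 → ClassTwoGap c →
      ClassKGap k (c / 2 ^ (k + 1)) := by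
    intro k c hk hc hgap G _ S hS hgen hnil
    by_cases hnv : Group.IsVirtuallyNilpotent G
    · exact Or.inl hnv
    · right
      have hpos : (0 : ℝ) < 2 ^ (k + 1) := by positivity
      rcases h1' k hk G S hS hgen hnil hnv with h | ⟨x, hx, h⟩
      · exact (div_le_div_of_nonneg_right hc hpos.le).trans h
      · refine (div_le_div_of_nonneg_right ?_ hpos.le).trans h
        rcases hgap (H746UG.AG x hx.1) (H746UG.AS x hx.1) (H746UG.AS_finite x hx.1)
          (H746UG.AS_gen x hx.1) (H746UG.aff_metabelian x hx.1) with h4 | h4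
        · exact absurd h4 (H746UG.aff_not_vn x hx.1 hx.2.2.2)
        · have h5 : rho (H746UG.AS x hx.1) = eta x := H746UG.rho_AS x hx.1
          rwa [h5] at h4
  refine ⟨h2, ?_, ?_⟩
  · rintro ⟨c, hc, hgap⟩ k hk
    have hlog : 0 < Real.log 2 := Real.log_pos (by norm_num)
    have hgap' : ClassTwoGap (min c (Real.log 2)) := by
      intro G _ S hS hgen hmet
      rcases hgap G S hS hgen hmet with h4 | h4
      · exact Or.inl h4
      · exact Or.inr ((min_le_left _ _).trans h4)
    exact ⟨min c (Real.log 2) / 2 ^ (k + 1), div_pos (lt_min hc hlog) (by positivity),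
      h2 k _ hk (min_le_right _ _) hgap'⟩
  · intro h
    obtain ⟨c, hc, hgap⟩ := h 1 le_rfl
    refine ⟨c, hc, ?_⟩
    intro G _ S hS hgen hmet
    apply hgap G S hS hgen
    left
    have e : gamma G 1 = commutator G := rfl
    rw [e]
    have hab : ∀ a b : commutator G, a * b = b * a := by
      intro a b
      have h4 : ⁅(a : G), (b : G)⁆ ∈ derivedSeries G 2 := by
        rw [derivedSeries_succ, derivedSeries_one]
        exact Subgroup.commutator_mem_commutator a.2 b.2
      rw [hmet, Subgroup.mem_bot, commutatorElement_eq_one_iff_mul_comm] at h4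
      exact Subtype.ext h4
    let _ : CommGroup (commutator G) :=
      { (inferInstance : Group (commutator G)) with mul_comm := hab }
    exact CommGroup.isNilpotent


/-- (1) Let `k ≥ 1`, let `S` be a finite generating set (not assumed symmetric) of a group `G` and
let `Γ = γ_{k+1}(G)`.  Then `ρ_S` exists and either `|S ^ n| ^ (2 ^ (k+1)) ≥ 2 ^ n` for all `n` and
`ρ_S ≥ (log 2) / 2 ^ (k+1)`, or `Γ / [Γ, Γ]` is finitely generated (and `Γ` is finitely generated if
it is nilpotent) and one of the following holds: there is an algebraic unit `x`, not a root of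
unity, with `|S ^ n| ^ (2 ^ (k+1)) ≥ |digitSums x n|` for all `n` and `ρ_S ≥ η(x) / 2 ^ (k+1)`; or
`G / [Γ, Γ]` is virtually nilpotent (and `G` is virtually nilpotent if `Γ` is nilpotent).
(2) For `c ≤ log 2` and `k ≥ 1`, a gap `c` for metabelian groups gives the gap `c / 2 ^ (k+1)` for
all groups in the class for `k`, in particular for all `G` with `γ_{k+1}(G)` nilpotent.
(3) There is a positive gap for metabelian groups if and only if for every `k ≥ 1` there is one for
the class for `k`. -/
theorem result :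
    (∀ (k : ℕ), 1 ≤ k → ∀ (G : Type u) [Group G] (S : Set G), S.Finite →
      Subgroup.closure S = ⊤ →
      Tendsto (fun n : ℕ => Real.log (Nat.card ↥(S ^ n)) / n) atTop (𝓝 (rho S)) ∧
      (((∀ n : ℕ, 2 ^ n ≤ Nat.card ↥(S ^ n) ^ (2 ^ (k + 1))) ∧
          Real.log 2 / 2 ^ (k + 1) ≤ rho S) ∨
        ((∃ F : Set G, F.Finite ∧ F ⊆ (gamma G k : Set G) ∧
            gamma G k = Subgroup.closure F ⊔ ⁅gamma G k, gamma G k⁆) ∧
          (Group.IsNilpotent (gamma G k) →
            ∃ F : Set G, F.Finite ∧ Subgroup.closure F = gamma G k) ∧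
          ((∃ x : ℂ, UnitNotRoot x ∧
              (∀ n : ℕ, Nat.card ↥(digitSums x n) ≤ Nat.card ↥(S ^ n) ^ (2 ^ (k + 1))) ∧
              eta x / 2 ^ (k + 1) ≤ rho S) ∨
            (Group.IsVirtuallyNilpotent (G ⧸ ⁅gamma G k, gamma G k⁆) ∧
              (Group.IsNilpotent (gamma G k) → Group.IsVirtuallyNilpotent G)))))) ∧
    (∀ (k : ℕ) (c : ℝ), 1 ≤ k → c ≤ Real.log 2 → ClassTwoGap c →
      ClassKGap k (c / 2 ^ (k + 1))) ∧
    ((∃ c > 0, ClassTwoGap c) ↔ ∀ k : ℕ, 1 ≤ k → ∃ c > 0, ClassKGap k c) := by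
  refine ⟨?_, main2⟩
  intro k hk G _ S hS hgen
  refine ⟨H746UG.tendsto_rho S, ?_⟩
  have hpos : (0 : ℝ) < 2 ^ (k + 1) := by positivity
  have hA : (∀ n : ℕ, 2 ^ n ≤ Nat.card ↥(S ^ n) ^ (2 ^ (k + 1))) →
      Real.log 2 / 2 ^ (k + 1) ≤ rho S := by
    intro h
    have h2 : ∀ n : ℕ, Nat.card ↥(digitSums 2 n) ≤ Nat.card ↥(S ^ n) ^ (2 ^ (k + 1)) := by
      intro n
      refine le_trans ?_ (h n)
      have := H746UG.card_DS_le (2 : ℂ) n
      rwa [H746UG.DS_eq_digitSums] at this
    refine ge_of_tendsto (H746UG.tendsto_rho S) ?_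
    filter_upwards [eventually_gt_atTop 0] with n hn
    have h1 := h n
    have h2 : 0 < Nat.card ↥(S ^ n) := Nat.pos_of_ne_zero (fun h3 => by
      rw [h3, zero_pow (by positivity)] at h1
      simp at h1)
    have h3 : Real.log ((2 : ℝ) ^ n) ≤
        Real.log ((Nat.card ↥(S ^ n) : ℝ) ^ (2 ^ (k + 1))) := by
      apply Real.log_le_log (by positivity)
      exact_mod_cast h1
    rw [Real.log_pow, Real.log_pow] at h3
    have hn' : (0 : ℝ) < n := by exact_mod_cast hn
    rw [div_le_div_iff₀ hpos hn']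
    push_cast at h3
    linarith
  by_cases hNF : H785R3.GrowthA.NoFree S (2 ^ (k + 1))
  swap
  · left
    have h2 : ∀ n : ℕ, 2 ^ n ≤ Nat.card ↥(S ^ n) ^ (2 ^ (k + 1)) :=
      H785R3.GrowthA.two_pow_of_not_NoFree hS hNF
    exact ⟨h2, hA h2⟩
  obtain ⟨F, hF, hFsub, h⟩ := H785R3.GrowthA.gam_fg_mod hS hgen hk hNF
  have hfg1 : ∃ F : Set G, F.Finite ∧ F ⊆ (gamma G k : Set G) ∧
      gamma G k = Subgroup.closure F ⊔ ⁅gamma G k, gamma G k⁆ := ⟨F, hF, hFsub, h⟩
  have hfg2 : Group.IsNilpotent (gamma G k) →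
      ∃ F : Set G, F.Finite ∧ Subgroup.closure F = gamma G k := fun hnil =>
    ⟨F, hF, H785R3.GrowthA.nilp_gen hnil hFsub h⟩
  rcases H785R3.GrowthA.main_dig hS hgen hk with ⟨x, hx0, hx, hn⟩ | hvn
  · have h2 : ∀ n : ℕ, Nat.card ↥(digitSums x n) ≤ Nat.card ↥(S ^ n) ^ (2 ^ (k + 1)) := by
      intro n
      have h3 := hn n
      rw [H746UG.DS_eq_digitSums] at h3
      exact h3
    have h3 := eta_le S x hx0 (L := 2 ^ (k + 1)) (by positivity) h2
    push_cast at h3
    by_cases hi : IsIntegral ℤ x ∧ IsIntegral ℤ x⁻¹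
    · exact Or.inr ⟨hfg1, hfg2, Or.inl ⟨x, ⟨hx0, hi.1, hi.2, hx⟩, h2, h3⟩⟩
    · left
      have h4 : ∀ n : ℕ, 2 ^ n ≤ Nat.card ↥(S ^ n) ^ (2 ^ (k + 1)) := by
        intro n
        rw [← H746UG.eta_log_two x hx0 hi n]
        exact h2 n
      exact ⟨h4, hA h4⟩
  · exact Or.inr ⟨hfg1, hfg2, Or.inr hvn⟩

end Pool.Agent.Results.MP_d69e80_al.NilpotentByClassKReduction
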