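import Pool.Agent.H746UG.Rate

/-!
A uniform growth gap for non-polycyclic metabelian groups and for solvable groups whose derived
subgroup is a torsion group.

Proof in outline.  Let `N` be a normal subgroup of `G = ⟨S⟩` with `(G/N)'` finite.  After
factoring out `[N, N]` and passing to the normal closure of finitely many commutators we may
assume that `N` is abelian, not finitely generated and the normal closure of a finite set; it is
then a Noetherian module over the group ring of the centre of `Q = G/N`, and after factoring out
a suitable normal subgroup contained in `N` all proper quotients of `N` by normal subgroups of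
`G` are finitely generated, so that the group ring acts through a domain `R`, without torsion.
With `m = |Q : Z(Q)|` the map `g ↦ g ^ m` is a homomorphism from `Q` to `Z(Q)` (transfer), so
conjugation by `g ^ m` is a multiplicative character `λ : G → R`.  If `X`, `Y` are positive words
with `X⁻¹ Y ∈ G'` and there is a coincidence between two words of the same length in `X`, `Y`,
then the commutator `[Y, X ^ m]` lies in a finitely generated abelian subgroup of `N` invariant
under conjugation by `X` (or `X⁻¹`), so `λ(X)` and `λ(X)⁻¹` are integral over `ℤ` or
`[Y, X ^ m] = 1`.  As `N` is not finitely generated, some `s ∈ S` has non-integral `λ(s)` or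
`λ(s)⁻¹`; some `t ∈ S` does not commute with `s ^ m`; and `X = s t`, `Y = t s` or `X = s s t`,
`Y = s t s` freely generate a free semigroup.
-/

set_option autoImplicit false

namespace Pool.Agent.Results.MP_d69e80_al.NonPolycyclicGap

open Filter Topology
open scoped Pointwise

/-- The exponential growth rate `ρ_S = lim (1/n) log |S ^ n|`, where `S ^ n` is the set of all
products of `n` elements of `S` (pointwise power of sets). -/
noncomputable def rho {G : Type*} [Group G] (S : Set G) : ℝ :=
  limUnder atTop (fun n : ℕ => Real.log (Nat.card ↥(S ^ n)) / n)

/-- The value of a word in two letters `X` (for `true`) and `Y` (for `false`). -/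
def ev {G : Type*} [Group G] (X Y : G) (w : List Bool) : G :=
  (w.map fun b => if b then X else Y).prod

/-- `X` and `Y` freely generate a free semigroup: distinct words have distinct values. -/
def FreePair {G : Type*} [Group G] (X Y : G) : Prop :=
  ∀ u v : List Bool, ev X Y u = ev X Y v → u = v

/-- Let `S` be a finite generating set of a group `G` (no symmetry assumed).  The limit defining
`ρ_S` exists and:

(1) if `N` is a normal subgroup such that `G/N` has finite derived subgroup and `N/[N,N]` is not
finitely generated, then for some `s, t ∈ S` one of the pairs `(st, ts)`, `(sst, sts)` freely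
generates a free semigroup, and `|S ^ n| ^ 3 ≥ 2 ^ n` for all `n`, so that `ρ_S ≥ (log 2)/3`;

(2) if `G` is metabelian (`G'' = 1`) and `G'` is not finitely generated (that is, `G` is not
polycyclic), then `ρ_S ≥ (log 2)/3`;

(3) if `G` is solvable, of any derived length, and `G'` is a torsion group, then either
`ρ_S = 0`, `G'` is finite and `G` has an abelian subgroup of finite index (in particular `G` is
virtually nilpotent), or `ρ_S ≥ (log 2)/3`. -/
theorem result {G : Type*} [Group G] (S : Set G) (hS : S.Finite)
    (hgen : Subgroup.closure S = ⊤) :
    Tendsto (fun n : ℕ => Real.log (Nat.card ↥(S ^ n)) / n) atTop (𝓝 (rho S)) ∧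
    (∀ N : Subgroup G, ∀ [N.Normal], Finite (commutator (G ⧸ N)) →
      ¬ Group.FG (Abelianization N) →
      (∃ s ∈ S, ∃ t ∈ S, FreePair (s * t) (t * s) ∨ FreePair (s * s * t) (s * t * s)) ∧
      (∀ n : ℕ, 2 ^ n ≤ Nat.card ↥(S ^ n) ^ 3) ∧ Real.log 2 / 3 ≤ rho S) ∧
    (derivedSeries G 2 = ⊥ → ¬ (commutator G).FG → Real.log 2 / 3 ≤ rho S) ∧
    (Group.IsSolvable G → (∀ g ∈ commutator G, IsOfFinOrder g) →
      (rho S = 0 ∧ Finite (commutator G) ∧
        ∃ H : Subgroup G, H.FiniteIndex ∧ (∀ a ∈ H, ∀ b ∈ H, a * b = b * a) ∧
          Group.IsNilpotent H) ∨
      Real.log 2 / 3 ≤ rho S) := by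
  have h1 : ∀ N : Subgroup G, ∀ [N.Normal], Finite (commutator (G ⧸ N)) →
      ¬ Group.FG (Abelianization N) → H746UG.HasPair S := fun N _ h hfg =>
    H746UG.main S hS hgen N h hfg
  have hGfg : Group.FG G := ⟨⟨hS.toFinset, by rw [Set.Finite.coe_toFinset]; exact hgen⟩⟩
  refine ⟨H746UG.tendsto_rho S, ?_, ?_, ?_⟩
  · intro N _ h hfg
    have h2 := h1 N h hfg
    exact ⟨h2, H746UG.growth S hS h2, H746UG.rho_ge_of_pair S hS h2⟩
  · intro hmet hfg
    apply H746UG.rho_ge_of_pair S hS
    refine h1 (commutator G) ?_ ?_
    · rw [H746UG.comm_quot]; infer_instance
    · intro h
      apply hfg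
      have h4 : ⁅commutator G, commutator G⁆ = ⊥ := by
        rw [← hmet, derivedSeries_succ, derivedSeries_one]
      have h5 := Subgroup.map_subtype_commutator (commutator G)
      rw [h4] at h5
      have hinj : Function.Injective (Abelianization.of : commutator G →* _) := by
        rw [← MonoidHom.ker_eq_bot_iff, Abelianization.ker_of]
        exact (Subgroup.map_eq_bot_iff_of_injective _ (commutator G).subtype_injective).mp h5
      let e : commutator G ≃* Abelianization (commutator G) :=
        MulEquiv.ofBijective Abelianization.of ⟨hinj, QuotientGroup.mk_surjective⟩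
      exact (Group.fg_iff_subgroup_fg _).mp
        (Group.fg_of_surjective (f := e.symm.toMonoidHom) e.symm.surjective)
  · intro hsol htor
    by_cases hp : H746UG.HasPair S
    · right; exact H746UG.rho_ge_of_pair S hS hp
    left
    have key : ∀ k : ℕ, (derivedSeries G (k + 1)).relIndex (commutator G) ≠ 0 := by
      intro k
      induction k with
      | zero => rw [zero_add, derivedSeries_one, Subgroup.relIndex_self]; exact one_ne_zero
      | succ k ih =>
        set N := derivedSeries G (k + 1) with hN
        have hNn : N.Normal := derivedSeries_normal G (k + 1)
        have hNle : N ≤ commutator G := by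
          rw [← derivedSeries_one]
          exact derivedSeries_antitone G (by omega)
        have h3 : Finite (commutator (G ⧸ N)) := by
          have h4 := H746UG.map_comm N
          have h5 := Subgroup.relIndex_ker (QuotientGroup.mk' N) (K := commutator G)
          rw [QuotientGroup.ker_mk', h4] at h5
          rw [h5] at ih
          exact Nat.finite_of_card_ne_zero ih
        have h4 : Group.FG (Abelianization N) := by
          by_contra hfg
          exact hp (h1 N h3 hfg)
        have h5 : IsMulTorsion (Abelianization N) := by
          intro x
          obtain ⟨x, rfl⟩ := QuotientGroup.mk_surjective x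
          have h6 : IsOfFinOrder x := by
            have := htor x (hNle x.2)
            exact Submonoid.isOfFinOrder_coe.mp this
          exact MonoidHom.isOfFinOrder (Abelianization.of : N →* Abelianization N) h6
        have h6 : Finite (Abelianization N) := CommGroup.finite_of_fg_isMulTorsion _ h5
        have h7 : (derivedSeries G (k + 1 + 1)).relIndex N ≠ 0 := by
          have h8 : (derivedSeries G (k + 1 + 1)).subgroupOf N = commutator N := by
            rw [derivedSeries_succ, ← hN, ← Subgroup.map_subtype_commutator]
            exact Subgroup.comap_map_eq_self_of_injective N.subtype_injective _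
          rw [Subgroup.relIndex, h8]
          have h9 : Finite (N ⧸ commutator N) := h6
          exact Subgroup.index_ne_zero_of_finite
        rw [← Subgroup.relIndex_mul_relIndex _ _ _
          (derivedSeries_antitone G (Nat.le_succ (k + 1))) hNle]
        exact mul_ne_zero h7 ih
    have hfin : Finite (commutator G) := by
      obtain ⟨n, hn⟩ := (Group.isSolvable_def G).mp hsol
      have h2 := key n
      have h3 : derivedSeries G (n + 1) = ⊥ := by
        rw [eq_bot_iff, ← hn]; exact derivedSeries_antitone G (Nat.le_succ n)
      rw [h3, Subgroup.relIndex_bot_left] at h2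
      exact Nat.finite_of_card_ne_zero h2
    refine ⟨H746UG.rho_zero S hS hfin, hfin, Subgroup.center G, ?_, ?_, ?_⟩
    · have h4 : Finite (commutatorSet G) := by
        have h5 : (commutator G : Set G).Finite := Set.toFinite _
        refine (h5.subset ?_).to_subtype
        rw [commutator_eq_closure]
        exact Subgroup.subset_closure
      infer_instance
    · intro a ha b _
      exact (Subgroup.mem_center_iff.mp ha b).symm
    · exact H746UG.center_nilp

end Pool.Agent.Results.MP_d69e80_al.NonPolycyclicGap
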