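import Pool.Agent.H785R3.GrowthD

/-!
# Uniform growth gap for (locally finite)-by-(nilpotent of class `k`) groups

Partial result on MP_d69e80_al.  Here `(⊤ : Subgroup G).lowerCentralSeries k` is `γ_{k+1}(G)`
(so `k = 1` is the derived subgroup) and `Subgroup.upperCentralSeries G k` is the `k`-th centre
`Z_k(G)`.
-/

namespace Pool.Agent.Results.MP_d69e80_al.TorsionByNilpotent

open Filter Topology
open scoped Pointwise

universe u

theorem result {G : Type u} [Group G] (k : ℕ)
    (hγ : (∀ T : Set G, T.Finite → T ⊆ ((⊤ : Subgroup G).lowerCentralSeries k : Set G) →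
        Finite (Subgroup.closure T)) ∨
      (Group.IsSolvable G ∧ ∀ g ∈ (⊤ : Subgroup G).lowerCentralSeries k, IsOfFinOrder g))
    (S : Set G) (hfin : S.Finite) (hS : Subgroup.closure S = ⊤) (ρ : ℝ)
    (hρ : Tendsto (fun n : ℕ => Real.log ((S ^ n).ncard : ℝ) / n) atTop (𝓝 ρ)) :
    ((Subgroup.upperCentralSeries G k).FiniteIndex ∧ Group.IsVirtuallyNilpotent G) ∨
      4 * Real.log 2 / (9 * 2 ^ k) ≤ ρ := by
  by_cases h : (Subgroup.upperCentralSeries G k).FiniteIndex
  · exact Or.inl ⟨h, _, Pool.Agent.H785R3.GrowthA.nilpotent_upper k, h⟩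
  · right
    have hLF : Pool.Agent.H785R3.GrowthA.LF ((⊤ : Subgroup G).lowerCentralSeries k) := by
      rcases hγ with h1 | ⟨h1, h2⟩
      · exact h1
      · have := h1
        exact Pool.Agent.H785R3.GrowthA.LF_of_solvable_torsion h2
    have hnf : ¬ Pool.Agent.H785R3.GrowthA.NoFree S (9 * 2 ^ k / 4) := fun hnf =>
      h (Pool.Agent.H785R3.GrowthA.main k G S hfin hS hLF hnf)
    unfold Pool.Agent.H785R3.GrowthA.NoFree at hnf
    push Not at hnf
    obtain ⟨j, hj, a, ha, b, hb, hfree⟩ := hnf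
    obtain ⟨hj0, hb⟩ := Pool.Agent.H785R3.GrowthA.growth_bound hfin ha hb hfree hρ
    refine le_trans ?_ hb
    have hj4 : 4 * j ≤ 9 * 2 ^ k := by omega
    have hj4' : (4 : ℝ) * j ≤ 9 * 2 ^ k := by exact_mod_cast hj4
    have hj' : (0 : ℝ) < j := by exact_mod_cast hj0
    have hlog : 0 < Real.log 2 := Real.log_pos (by norm_num)
    rw [div_le_div_iff₀ (by positivity) hj']
    nlinarith

end Pool.Agent.Results.MP_d69e80_al.TorsionByNilpotent
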